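import Pool.Agent.N408.IB.Stm

/-!
# Project IB, `S_DEL`: support function description of the central symmetral (helper492)
-/

set_option autoImplicit false

namespace N492.IB.DEL

open IB408

theorem t : IB408.S_DEL := by
  intro K H hK hc hH z
  constructor
  · rintro ⟨x, hx, y, hy, rfl⟩ u hu
    have h1 := (hH u hu).1 x hx
    have h2 := (hH (-u) (by rw [norm_neg, hu])).1 y hy
    rw [inner_neg_right] at h2
    rw [real_inner_smul_left, inner_sub_left]
    linarith
  · intro hz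
    by_contra hD
    set L : E4 × E4 →ₗ[ℝ] E4 := (1 / 2 : ℝ) • (LinearMap.fst ℝ E4 E4 - LinearMap.snd ℝ E4 E4)
      with hL
    have hLa : ∀ p : E4 × E4, L p = (1 / 2 : ℝ) • (p.1 - p.2) := fun p => rfl
    have h1 : Convex ℝ (L '' (K ×ˢ K)) := (hK.prod hK).linear_image L
    have h2 : IsCompact (L '' (K ×ˢ K)) := by
      refine (hc.prod hc).image ?_
      have : (L : E4 × E4 → E4) = fun p => (1 / 2 : ℝ) • (p.1 - p.2) := funext hLa
      rw [this]
      fun_prop
    have h3 : z ∉ L '' (K ×ˢ K) := by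
      rintro ⟨p, hp, rfl⟩
      exact hD ⟨p.1, hp.1, p.2, hp.2, hLa p⟩
    obtain ⟨f, s, hf, hs⟩ := geometric_hahn_banach_closed_point h1 h2.isClosed h3
    set w : E4 := (InnerProductSpace.toDual ℝ E4).symm f with hw
    have hfw : ∀ x, f x = inner ℝ x w := by
      intro x
      rw [real_inner_comm, hw, InnerProductSpace.toDual_symm_apply]
    have hax : ‖ax‖ = 1 := by
      unfold ax
      rw [EuclideanSpace.norm_single, norm_one]
    obtain ⟨x₀, hx₀, -⟩ := (hH ax hax).2
    have hD' : ∀ x ∈ K, ∀ y ∈ K, f ((1 / 2 : ℝ) • (x - y)) < s := fun x hx y hy =>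
      hf _ ⟨(x, y), ⟨hx, hy⟩, hLa _⟩
    have hw0 : w ≠ 0 := by
      intro h0
      have h4 := hD' x₀ hx₀ x₀ hx₀
      rw [hfw, h0, inner_zero_right] at h4
      rw [hfw, h0, inner_zero_right] at hs
      linarith
    have hn : 0 < ‖w‖ := norm_pos_iff.2 hw0
    set u : E4 := ‖w‖⁻¹ • w with hu
    have hu1 : ‖u‖ = 1 := by
      rw [hu, norm_smul, norm_inv, norm_norm, inv_mul_cancel₀ hn.ne']
    obtain ⟨x, hx, hxu⟩ := (hH u hu1).2
    obtain ⟨y, hy, hyu⟩ := (hH (-u) (by rw [norm_neg, hu1])).2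
    have h5 := hD' x hx y hy
    have h6 := hz u hu1
    rw [inner_neg_right] at hyu
    have h7 : ∀ v : E4, f v = ‖w‖ * inner ℝ v u := by
      intro v
      rw [hfw, hu, real_inner_smul_right, ← mul_assoc, mul_inv_cancel₀ hn.ne', one_mul]
    rw [h7, real_inner_smul_left, inner_sub_left] at h5
    rw [h7] at hs
    have h8 : ‖w‖ * inner ℝ z u ≤ ‖w‖ * ((H u + H (-u)) / 2) :=
      mul_le_mul_of_nonneg_left h6 hn.le
    have h9 : (1 / 2 : ℝ) * (inner ℝ x u - inner ℝ y u) = (H u + H (-u)) / 2 := by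
      rw [← hxu, ← hyu]
      ring
    rw [h9] at h5
    linarith

end N492.IB.DEL
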